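import Pool.Agent.Helper32.PG.Stm

/-!
# Gap of the Margulis graphs on the discrete torus (package P1)
-/

set_option autoImplicit false

open Finset ComplexConjugate

namespace Pool.Agent.Helper72.PG

variable {m : ℕ} [NeZero m]

/-- The character. -/
noncomputable abbrev ch (x : ZMod m) : ℂ := ZMod.stdAddChar x

theorem ch_add (x y : ZMod m) : ch (x + y) = ch x * ch y :=
  AddChar.map_add_eq_mul _ _ _

theorem ch_neg (x : ZMod m) : ch (-x) = conj (ch x) :=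
  AddChar.map_neg_eq_conj _ _

theorem ch_norm (x : ZMod m) : ‖ch x‖ = 1 := by
  rw [ch, ZMod.stdAddChar_apply]
  exact Circle.norm_coe _

theorem orth (u v : ZMod m) :
    ∑ k : ZMod m × ZMod m, ch (k.1 * u + k.2 * v) = if u = 0 ∧ v = 0 then (m : ℂ) ^ 2 else 0 := by
  have h1 : ∀ u : ZMod m, ∑ x : ZMod m, ch (x * u) = if u = 0 then (m : ℂ) else 0 := by
    intro u
    have h := AddChar.sum_mulShift u (ZMod.isPrimitive_stdAddChar m)
    rw [h]
    split_ifs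
    · rw [ZMod.card]
    · simp
  rw [Fintype.sum_prod_type]
  have h2 : ∀ x : ZMod m, ∑ y : ZMod m, ch (x * u + y * v) = ch (x * u) * ∑ y : ZMod m, ch (y * v) := by
    intro x
    rw [mul_sum]
    exact sum_congr rfl fun y _ => ch_add _ _
  simp only
  rw [sum_congr rfl fun x _ => h2 x, ← sum_mul, h1, h1]
  by_cases hu : u = 0
  · by_cases hv : v = 0
    · simp [hu, hv, sq]
    · simp [hv]
  · simp [hu]

/-- The Fourier transform. -/
noncomputable def ft (f : ZMod m × ZMod m → ℝ) (k : ZMod m × ZMod m) : ℂ :=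
  ∑ p : ZMod m × ZMod m, (f p : ℂ) * ch (k.1 * p.1 + k.2 * p.2)

theorem parseval (f : ZMod m × ZMod m → ℝ) :
    ∑ k, ‖ft f k‖ ^ 2 = (m : ℝ) ^ 2 * ∑ p, f p ^ 2 := by
  have key : ((∑ k, ‖ft f k‖ ^ 2 : ℝ) : ℂ) = (((m : ℝ) ^ 2 * ∑ p, f p ^ 2 : ℝ) : ℂ) := by
    push_cast
    have e : ∀ k : ZMod m × ZMod m, (‖ft f k‖ : ℂ) ^ 2 = ∑ p : ZMod m × ZMod m,
        ∑ p' : ZMod m × ZMod m, (f p : ℂ) * (f p' : ℂ) *
          ch (k.1 * (p.1 - p'.1) + k.2 * (p.2 - p'.2)) := by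
      intro k
      rw [← Complex.mul_conj', ft, map_sum, sum_mul_sum]
      refine sum_congr rfl fun p _ => sum_congr rfl fun p' _ => ?_
      rw [map_mul, Complex.conj_ofReal, ← ch_neg]
      have : ch (k.1 * (p.1 - p'.1) + k.2 * (p.2 - p'.2)) =
          ch (k.1 * p.1 + k.2 * p.2) * ch (-(k.1 * p'.1 + k.2 * p'.2)) := by
        rw [← ch_add]
        congr 1
        ring
      rw [this]
      ring
    rw [sum_congr rfl fun k _ => e k, sum_comm, mul_sum]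
    refine sum_congr rfl fun p _ => ?_
    rw [sum_comm, sum_eq_single p]
    · rw [← mul_sum, orth, if_pos ⟨sub_self _, sub_self _⟩]
      ring
    · intro p' _ hp'
      rw [← mul_sum, orth, if_neg, mul_zero]
      rintro ⟨h1, h2⟩
      exact hp' (Prod.ext (sub_eq_zero.1 h1).symm (sub_eq_zero.1 h2).symm)
    · intro h
      exact absurd (mem_univ p) h
  exact_mod_cast key

theorem ft_sub (f h : ZMod m × ZMod m → ℝ) (k : ZMod m × ZMod m) :
    ft (fun p => f p - h p) k = ft f k - ft h k := by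
  rw [ft, ft, ft, ← sum_sub_distrib]
  refine sum_congr rfl fun p _ => ?_
  push_cast
  ring

theorem ft_t1 (f : ZMod m × ZMod m → ℝ) (k : ZMod m × ZMod m) :
    ft (fun p => f (p.1 + 1, p.2)) k = ch (-k.1) * ft f k := by
  rw [ft, ft, mul_sum]
  refine Fintype.sum_equiv ((Equiv.addRight (1 : ZMod m)).prodCongr (Equiv.refl _)) _ _ fun p => ?_
  have : ch (k.1 * p.1 + k.2 * p.2) = ch (-k.1) * ch (k.1 * (p.1 + 1) + k.2 * p.2) := by
    rw [← ch_add]
    congr 1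
    ring
  simp only [Equiv.prodCongr_apply, Prod.map, Equiv.coe_addRight, Equiv.refl_apply]
  rw [this]
  ring

theorem ft_t2 (f : ZMod m × ZMod m → ℝ) (k : ZMod m × ZMod m) :
    ft (fun p => f (p.1, p.2 + 1)) k = ch (-k.2) * ft f k := by
  rw [ft, ft, mul_sum]
  refine Fintype.sum_equiv ((Equiv.refl _).prodCongr (Equiv.addRight (1 : ZMod m))) _ _ fun p => ?_
  have : ch (k.1 * p.1 + k.2 * p.2) = ch (-k.2) * ch (k.1 * p.1 + k.2 * (p.2 + 1)) := by
    rw [← ch_add]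
    congr 1
    ring
  simp only [Equiv.prodCongr_apply, Prod.map, Equiv.coe_addRight, Equiv.refl_apply]
  rw [this]
  ring

/-- `(x, y) ↦ (x + y, y)` -/
def sh1 : ZMod m × ZMod m ≃ ZMod m × ZMod m where
  toFun p := (p.1 + p.2, p.2)
  invFun p := (p.1 - p.2, p.2)
  left_inv p := by ext <;> simp
  right_inv p := by ext <;> simp

/-- `(x, y) ↦ (x, y + x)` -/
def sh2 : ZMod m × ZMod m ≃ ZMod m × ZMod m where
  toFun p := (p.1, p.2 + p.1)
  invFun p := (p.1, p.2 - p.1)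
  left_inv p := by ext <;> simp
  right_inv p := by ext <;> simp

theorem ft_s1 (f : ZMod m × ZMod m → ℝ) (k : ZMod m × ZMod m) :
    ft (fun p => f (p.1 + p.2, p.2)) k = ft f (sh2.symm k) := by
  rw [ft, ft]
  refine Fintype.sum_equiv sh1 _ _ fun p => ?_
  have : k.1 * p.1 + k.2 * p.2 = (sh2.symm k).1 * (sh1 p).1 + (sh2.symm k).2 * (sh1 p).2 := by
    change k.1 * p.1 + k.2 * p.2 = k.1 * (p.1 + p.2) + (k.2 - k.1) * p.2
    ring
  rw [this]
  rfl

theorem ft_s2 (f : ZMod m × ZMod m → ℝ) (k : ZMod m × ZMod m) :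
    ft (fun p => f (p.1, p.2 + p.1)) k = ft f (sh1.symm k) := by
  rw [ft, ft]
  refine Fintype.sum_equiv sh2 _ _ fun p => ?_
  have : k.1 * p.1 + k.2 * p.2 = (sh1.symm k).1 * (sh2 p).1 + (sh1.symm k).2 * (sh2 p).2 := by
    change k.1 * p.1 + k.2 * p.2 = (k.1 - k.2) * p.1 + k.2 * (p.2 + p.1)
    ring
  rw [this]
  rfl

/-- The character is far from one outside the box. -/
theorem ch_far {a : ZMod m} (ha : (m : ℤ) ≤ 4 * |a.valMinAbs|) : 2 ≤ ‖ch (-a) - 1‖ ^ 2 := by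
  have hm : (0 : ℝ) < m := by exact_mod_cast Nat.pos_of_ne_zero (NeZero.ne m)
  have h1 : ch (-a) = Complex.exp ((-(2 * Real.pi * a.valMinAbs / m) : ℝ) * Complex.I) := by
    have h2 : ((-a.valMinAbs : ℤ) : ZMod m) = -a := by
      push_cast
      ring
    rw [ch, ← h2, ZMod.stdAddChar_coe]
    congr 1
    push_cast
    ring
  rw [h1]
  set t : ℝ := 2 * Real.pi * a.valMinAbs / m with ht
  have h3 : ‖Complex.exp ((-t : ℝ) * Complex.I) - 1‖ ^ 2 = 2 - 2 * Real.cos t := by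
    rw [← Complex.normSq_eq_norm_sq, Complex.normSq_apply, Complex.exp_mul_I]
    simp only [Complex.sub_re, Complex.add_re, Complex.sub_im, Complex.add_im, Complex.mul_re,
      Complex.mul_im, Complex.I_re, Complex.I_im, Complex.one_re, Complex.one_im]
    rw [← Complex.ofReal_cos, ← Complex.ofReal_sin]
    simp only [Complex.ofReal_re, Complex.ofReal_im, Real.cos_neg, Real.sin_neg]
    have := Real.sin_sq_add_cos_sq t
    nlinarith
  rw [h3]
  have h4 : Real.cos t ≤ 0 := by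
    rw [← Real.cos_abs]
    have h5 := ZMod.valMinAbs_mem_Ioc a
    have h6 : |a.valMinAbs| * 2 ≤ m := by
      rcases abs_cases a.valMinAbs with ⟨h, _⟩ | ⟨h, _⟩
      · rw [h]; exact h5.2
      · rw [h]; have := h5.1; linarith
    have h7 : (m : ℝ) ≤ 4 * |(a.valMinAbs : ℝ)| := by exact_mod_cast ha
    have h8 : |(a.valMinAbs : ℝ)| * 2 ≤ m := by exact_mod_cast h6
    have h9 : |t| = 2 * Real.pi * |(a.valMinAbs : ℝ)| / m := by
      rw [ht, abs_div, abs_mul, abs_of_pos (by positivity : (0 : ℝ) < 2 * Real.pi), abs_of_pos hm]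
    have hpi := Real.pi_pos
    apply Real.cos_nonpos_of_pi_div_two_le_of_le
    · rw [h9, le_div_iff₀ hm]
      nlinarith
    · rw [h9]
      have : 2 * Real.pi * |(a.valMinAbs : ℝ)| / m ≤ Real.pi := by
        rw [div_le_iff₀ hm]
        nlinarith
      linarith
  linarith

theorem vadd {a b : ZMod m} (ha : 4 * |a.valMinAbs| < m) (hb : 4 * |b.valMinAbs| < m) :
    (a + b).valMinAbs = a.valMinAbs + b.valMinAbs := by
  rw [ZMod.valMinAbs_spec]
  refine ⟨?_, ?_, ?_⟩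
  · push_cast
    ring
  · have h1 := neg_abs_le a.valMinAbs
    have h2 := neg_abs_le b.valMinAbs
    linarith
  · have h1 := le_abs_self a.valMinAbs
    have h2 := le_abs_self b.valMinAbs
    linarith

theorem vsub {a b : ZMod m} (ha : 4 * |a.valMinAbs| < m) (hb : 4 * |b.valMinAbs| < m) :
    (a - b).valMinAbs = a.valMinAbs - b.valMinAbs := by
  rw [ZMod.valMinAbs_spec]
  refine ⟨?_, ?_, ?_⟩
  · push_cast
    ring
  · have h1 := neg_abs_le a.valMinAbs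
    have h2 := le_abs_self b.valMinAbs
    linarith
  · have h1 := le_abs_self a.valMinAbs
    have h2 := neg_abs_le b.valMinAbs
    linarith

/-- Comparison of the mass of a set and of its image. -/
theorem shear_mass (F : ZMod m × ZMod m → ℂ) (U : ZMod m × ZMod m ≃ ZMod m × ZMod m)
    (A : Finset (ZMod m × ZMod m)) :
    ∑ k ∈ A, ‖F k‖ ^ 2 ≤ ∑ k ∈ A, ‖F (U k)‖ ^ 2 + 10 * ∑ k, ‖F (U k) - F k‖ ^ 2 +
      (∑ k, ‖F k‖ ^ 2) / 10 := by
  have h1 : ∀ k, ‖F k‖ ^ 2 ≤ ‖F (U k)‖ ^ 2 + (10 * ‖F (U k) - F k‖ ^ 2 +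
      (‖F k‖ ^ 2 + ‖F (U k)‖ ^ 2) / 20) := by
    intro k
    have h2 : ‖F k‖ ≤ ‖F (U k)‖ + ‖F (U k) - F k‖ := by
      have := norm_sub_norm_le (F k) (F (U k))
      rw [norm_sub_rev] at this
      linarith
    have h3 := norm_nonneg (F k)
    have h4 := norm_nonneg (F (U k))
    have h5 := norm_nonneg (F (U k) - F k)
    rcases le_total (‖F k‖) (‖F (U k)‖) with h | h
    · nlinarith
    · nlinarith [sq_nonneg (‖F k‖ + ‖F (U k)‖ - 20 * ‖F (U k) - F k‖),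
        sq_nonneg (‖F k‖ - ‖F (U k)‖)]
  have h6 : ∑ k ∈ A, (10 * ‖F (U k) - F k‖ ^ 2 + (‖F k‖ ^ 2 + ‖F (U k)‖ ^ 2) / 20) ≤
      ∑ k, (10 * ‖F (U k) - F k‖ ^ 2 + (‖F k‖ ^ 2 + ‖F (U k)‖ ^ 2) / 20) :=
    sum_le_sum_of_subset_of_nonneg (subset_univ A) fun k _ _ => by positivity
  have h7 : ∑ k, ‖F (U k)‖ ^ 2 = ∑ k, ‖F k‖ ^ 2 := Equiv.sum_comp U fun k => ‖F k‖ ^ 2
  have h8 : ∑ k, (10 * ‖F (U k) - F k‖ ^ 2 + (‖F k‖ ^ 2 + ‖F (U k)‖ ^ 2) / 20) =
      10 * ∑ k, ‖F (U k) - F k‖ ^ 2 + (∑ k, ‖F k‖ ^ 2) / 10 := by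
    rw [sum_add_distrib, ← mul_sum, ← sum_div, sum_add_distrib, h7]
    ring
  calc ∑ k ∈ A, ‖F k‖ ^ 2 ≤ ∑ k ∈ A, (‖F (U k)‖ ^ 2 + (10 * ‖F (U k) - F k‖ ^ 2 +
      (‖F k‖ ^ 2 + ‖F (U k)‖ ^ 2) / 20)) := sum_le_sum fun k _ => h1 k
    _ = ∑ k ∈ A, ‖F (U k)‖ ^ 2 + ∑ k ∈ A, (10 * ‖F (U k) - F k‖ ^ 2 +
      (‖F k‖ ^ 2 + ‖F (U k)‖ ^ 2) / 20) := sum_add_distrib
    _ ≤ _ := by linarith

omit [NeZero m] in
/-- Two disjoint images. -/
theorem two_images (w : ZMod m × ZMod m → ℝ) (hw : ∀ k, 0 ≤ w k)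
    (U V : ZMod m × ZMod m ≃ ZMod m × ZMod m) (A A0 : Finset (ZMod m × ZMod m))
    (c : ZMod m × ZMod m → Prop) (hU : ∀ k ∈ A, U k ∈ A0 ∧ c (U k))
    (hV : ∀ k ∈ A, V k ∈ A0 ∧ ¬ c (V k)) :
    ∑ k ∈ A, w (U k) + ∑ k ∈ A, w (V k) ≤ ∑ k ∈ A0, w k := by
  classical
  have h1 : ∑ k ∈ A, w (U k) = ∑ k ∈ A.map U.toEmbedding, w k := by
    rw [sum_map]
    rfl
  have h2 : ∑ k ∈ A, w (V k) = ∑ k ∈ A.map V.toEmbedding, w k := by
    rw [sum_map]
    rfl
  rw [h1, h2, ← sum_filter_add_sum_filter_not A0 c]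
  apply add_le_add
  · apply sum_le_sum_of_subset_of_nonneg
    · intro k hk
      rw [mem_map] at hk
      obtain ⟨k', hk', rfl⟩ := hk
      rw [mem_filter]
      exact hU k' hk'
    · exact fun k _ _ => hw k
  · apply sum_le_sum_of_subset_of_nonneg
    · intro k hk
      rw [mem_map] at hk
      obtain ⟨k', hk', rfl⟩ := hk
      rw [mem_filter]
      exact hV k' hk'
    · exact fun k _ _ => hw k

/-- The box. -/
def Box (k : ZMod m × ZMod m) : Prop :=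
  4 * |k.1.valMinAbs| < m ∧ 4 * |k.2.valMinAbs| < m

/-- The first cone. -/
def CA (k : ZMod m × ZMod m) : Prop :=
  k.1.valMinAbs ≠ 0 ∧ 0 ≤ k.1.valMinAbs * k.2.valMinAbs

/-- The second cone. -/
def CB (k : ZMod m × ZMod m) : Prop :=
  k.1.valMinAbs * k.2.valMinAbs < 0 ∨ (k.1.valMinAbs = 0 ∧ k.2.valMinAbs ≠ 0)

theorem ppA (k : ZMod m × ZMod m) (hb : Box k) (hk : CA k) :
    (CA (sh1 k) ∧ |(sh1 k).2.valMinAbs| < |(sh1 k).1.valMinAbs|) ∧
    (CA (sh2 k) ∧ ¬ |(sh2 k).2.valMinAbs| < |(sh2 k).1.valMinAbs|) := by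
  obtain ⟨a, b⟩ := k
  obtain ⟨h1, h2⟩ := hb
  obtain ⟨h3, h4⟩ := hk
  simp only at h1 h2 h3 h4
  have e1 : (sh1 (a, b) : ZMod m × ZMod m).1.valMinAbs = a.valMinAbs + b.valMinAbs := vadd h1 h2
  have e2 : (sh1 (a, b) : ZMod m × ZMod m).2.valMinAbs = b.valMinAbs := rfl
  have e3 : (sh2 (a, b) : ZMod m × ZMod m).1.valMinAbs = a.valMinAbs := rfl
  have e4 : (sh2 (a, b) : ZMod m × ZMod m).2.valMinAbs = b.valMinAbs + a.valMinAbs := vadd h2 h1
  rw [CA, CA, e1, e2, e3, e4]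
  generalize a.valMinAbs = x at *
  generalize b.valMinAbs = y at *
  rcases lt_or_gt_of_ne h3 with h | h
  · have hy : y ≤ 0 := by nlinarith
    refine ⟨⟨⟨by omega, by nlinarith⟩, ?_⟩, ⟨h3, by nlinarith⟩, ?_⟩
    · rw [abs_of_nonpos hy, abs_of_neg (by omega)]
      omega
    · rw [abs_of_nonpos (by omega : y + x ≤ 0), abs_of_neg h]
      omega
  · have hy : 0 ≤ y := by nlinarith
    refine ⟨⟨⟨by omega, by nlinarith⟩, ?_⟩, ⟨h3, by nlinarith⟩, ?_⟩
    · rw [abs_of_nonneg hy, abs_of_pos (by omega)]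
      omega
    · rw [abs_of_nonneg (by omega : 0 ≤ y + x), abs_of_pos h]
      omega

theorem ppB (k : ZMod m × ZMod m) (hb : Box k) (hk : CB k) :
    (CB (sh1.symm k) ∧ ((sh1.symm k).1.valMinAbs ≠ 0 ∧
      |(sh1.symm k).2.valMinAbs| ≤ |(sh1.symm k).1.valMinAbs|)) ∧
    (CB (sh2.symm k) ∧ ¬ ((sh2.symm k).1.valMinAbs ≠ 0 ∧
      |(sh2.symm k).2.valMinAbs| ≤ |(sh2.symm k).1.valMinAbs|)) := by
  obtain ⟨a, b⟩ := k
  obtain ⟨h1, h2⟩ := hb
  rw [CB] at hk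
  simp only at h1 h2 hk
  have e1 : (sh1.symm (a, b) : ZMod m × ZMod m).1.valMinAbs = a.valMinAbs - b.valMinAbs :=
    vsub h1 h2
  have e2 : (sh1.symm (a, b) : ZMod m × ZMod m).2.valMinAbs = b.valMinAbs := rfl
  have e3 : (sh2.symm (a, b) : ZMod m × ZMod m).1.valMinAbs = a.valMinAbs := rfl
  have e4 : (sh2.symm (a, b) : ZMod m × ZMod m).2.valMinAbs = b.valMinAbs - a.valMinAbs :=
    vsub h2 h1
  rw [CB, CB, e1, e2, e3, e4]
  generalize a.valMinAbs = x at *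
  generalize b.valMinAbs = y at *
  rcases hk with hk | ⟨hx, hy⟩
  · rcases mul_neg_iff.1 hk with ⟨hx, hy⟩ | ⟨hx, hy⟩
    · refine ⟨⟨Or.inl (by nlinarith), by omega, ?_⟩, Or.inl (by nlinarith), ?_⟩
      · rw [abs_of_neg hy, abs_of_pos (by omega)]
        omega
      · rintro ⟨_, h⟩
        rw [abs_of_neg (by omega : y - x < 0), abs_of_pos hx] at h
        omega
    · refine ⟨⟨Or.inl (by nlinarith), by omega, ?_⟩, Or.inl (by nlinarith), ?_⟩
      · rw [abs_of_pos hy, abs_of_neg (by omega)]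
        omega
      · rintro ⟨_, h⟩
        rw [abs_of_pos (by omega : 0 < y - x), abs_of_neg hx] at h
        omega
  · subst hx
    have hyy : 0 < y * y := mul_self_pos.2 hy
    refine ⟨⟨Or.inl (by nlinarith), by omega, ?_⟩, Or.inr ⟨rfl, by omega⟩, ?_⟩
    · rw [zero_sub, abs_neg]
    · rintro ⟨h, _⟩
      exact h rfl

/-- The main estimate on the Fourier side. -/
theorem fourier_gap (F : ZMod m × ZMod m → ℂ) (h0 : F 0 = 0) :
    3 / 5 * ∑ k, ‖F k‖ ^ 2 ≤ 3 / 2 * (∑ k, ‖ch (-k.1) * F k - F k‖ ^ 2 +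
      ∑ k, ‖ch (-k.2) * F k - F k‖ ^ 2) +
      20 * (∑ k, ‖F (sh1.symm k) - F k‖ ^ 2 + ∑ k, ‖F (sh2.symm k) - F k‖ ^ 2) := by
  classical
  set w : ZMod m × ZMod m → ℝ := fun k => ‖F k‖ ^ 2 with hw
  have hw0 : ∀ k, 0 ≤ w k := fun k => by positivity
  set W : ℝ := ∑ k, ‖F k‖ ^ 2 with hW
  set A : Finset (ZMod m × ZMod m) := univ.filter fun k => Box k ∧ CA k with hA
  set B : Finset (ZMod m × ZMod m) := univ.filter fun k => Box k ∧ CB k with hB
  set A0 : Finset (ZMod m × ZMod m) := univ.filter fun k => CA k with hA0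
  set B0 : Finset (ZMod m × ZMod m) := univ.filter fun k => CB k with hB0
  set N : Finset (ZMod m × ZMod m) := univ.filter fun k => ¬ Box k with hN
  have mA : ∀ k, k ∈ A ↔ Box k ∧ CA k := fun k => by rw [hA, mem_filter]; simp
  have mB : ∀ k, k ∈ B ↔ Box k ∧ CB k := fun k => by rw [hB, mem_filter]; simp
  have mA0 : ∀ k, k ∈ A0 ↔ CA k := fun k => by rw [hA0, mem_filter]; simp
  have mB0 : ∀ k, k ∈ B0 ↔ CB k := fun k => by rw [hB0, mem_filter]; simp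
  have mN : ∀ k, k ∈ N ↔ ¬ Box k := fun k => by rw [hN, mem_filter]; simp
  -- the total mass
  have htot : W ≤ ∑ k ∈ A, w k + ∑ k ∈ B, w k + ∑ k ∈ N, w k := by
    rw [hA, hB, hN, sum_filter, sum_filter, sum_filter, ← sum_add_distrib, ← sum_add_distrib]
    refine sum_le_sum fun k _ => ?_
    have h1 := hw0 k
    by_cases hb : Box k
    · by_cases hx : k.1.valMinAbs = 0
      · by_cases hy : k.2.valMinAbs = 0
        · have hk : k = 0 := Prod.ext ((ZMod.valMinAbs_eq_zero _).1 hx)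
            ((ZMod.valMinAbs_eq_zero _).1 hy)
          have : ‖F k‖ ^ 2 = 0 := by rw [hk, h0]; simp
          rw [this]
          have h2 : w k = 0 := this
          rw [h2]
          simp
        · have hc : CB k := Or.inr ⟨hx, hy⟩
          rw [if_pos (⟨hb, hc⟩ : Box k ∧ CB k)]
          split_ifs <;> simp only [hw] at h1 ⊢ <;> linarith
      · by_cases hxy : 0 ≤ k.1.valMinAbs * k.2.valMinAbs
        · have hc : CA k := ⟨hx, hxy⟩
          rw [if_pos (⟨hb, hc⟩ : Box k ∧ CA k)]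
          split_ifs <;> simp only [hw] at h1 ⊢ <;> linarith
        · have hc : CB k := Or.inl (not_le.1 hxy)
          rw [if_pos (⟨hb, hc⟩ : Box k ∧ CB k)]
          split_ifs <;> simp only [hw] at h1 ⊢ <;> linarith
    · rw [if_pos (hb : ¬ Box k)]
      split_ifs <;> simp only [hw] at h1 ⊢ <;> linarith
  -- outside the box
  have hNle : ∑ k ∈ N, w k ≤ 1 / 2 * (∑ k, ‖ch (-k.1) * F k - F k‖ ^ 2 +
      ∑ k, ‖ch (-k.2) * F k - F k‖ ^ 2) := by
    rw [← sum_add_distrib, mul_sum]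
    have h1 : ∑ k ∈ N, 1 / 2 * (‖ch (-k.1) * F k - F k‖ ^ 2 + ‖ch (-k.2) * F k - F k‖ ^ 2) ≤
        ∑ k, 1 / 2 * (‖ch (-k.1) * F k - F k‖ ^ 2 + ‖ch (-k.2) * F k - F k‖ ^ 2) :=
      sum_le_sum_of_subset_of_nonneg (subset_univ N) fun k _ _ => by positivity
    refine le_trans (sum_le_sum fun k hk => ?_) h1
    rw [mN, Box, not_and_or, not_lt, not_lt] at hk
    have e : ∀ a : ZMod m, ‖ch (-a) * F k - F k‖ ^ 2 = ‖ch (-a) - 1‖ ^ 2 * w k := by
      intro a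
      have : ch (-a) * F k - F k = (ch (-a) - 1) * F k := by ring
      rw [this, norm_mul, mul_pow]
    rw [e, e]
    have h2 := hw0 k
    have h3 : 0 ≤ ‖ch (-k.1) - 1‖ ^ 2 := by positivity
    have h4 : 0 ≤ ‖ch (-k.2) - 1‖ ^ 2 := by positivity
    rcases hk with hk | hk
    · have := ch_far hk
      nlinarith [mul_nonneg h4 h2]
    · have := ch_far hk
      nlinarith [mul_nonneg h3 h2]
  -- the two cones
  have hsplitA : ∑ k ∈ A0, w k ≤ ∑ k ∈ A, w k + ∑ k ∈ N, w k := by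
    have h1 : A0 ⊆ A ∪ N := by
      intro k hk
      rw [mem_union, mA, mN]
      rw [mA0] at hk
      by_cases hb : Box k
      · exact Or.inl ⟨hb, hk⟩
      · exact Or.inr hb
    refine (sum_le_sum_of_subset_of_nonneg h1 fun k _ _ => hw0 k).trans ?_
    rw [← sum_union_inter]
    have : 0 ≤ ∑ k ∈ A ∩ N, w k := sum_nonneg fun k _ => hw0 k
    linarith
  have hsplitB : ∑ k ∈ B0, w k ≤ ∑ k ∈ B, w k + ∑ k ∈ N, w k := by
    have h1 : B0 ⊆ B ∪ N := by
      intro k hk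
      rw [mem_union, mB, mN]
      rw [mB0] at hk
      by_cases hb : Box k
      · exact Or.inl ⟨hb, hk⟩
      · exact Or.inr hb
    refine (sum_le_sum_of_subset_of_nonneg h1 fun k _ _ => hw0 k).trans ?_
    rw [← sum_union_inter]
    have : 0 ≤ ∑ k ∈ B ∩ N, w k := sum_nonneg fun k _ => hw0 k
    linarith
  have hppA := two_images w hw0 sh1 sh2 A A0 (fun k => |k.2.valMinAbs| < |k.1.valMinAbs|)
    (fun k hk => by
      rw [mA] at hk
      rw [mA0]
      exact (ppA k hk.1 hk.2).1) (fun k hk => by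
      rw [mA] at hk
      rw [mA0]
      exact (ppA k hk.1 hk.2).2)
  have hppB := two_images w hw0 sh1.symm sh2.symm B B0 (fun k => k.1.valMinAbs ≠ 0 ∧
      |k.2.valMinAbs| ≤ |k.1.valMinAbs|)
    (fun k hk => by
      rw [mB] at hk
      rw [mB0]
      exact (ppB k hk.1 hk.2).1) (fun k hk => by
      rw [mB] at hk
      rw [mB0]
      exact (ppB k hk.1 hk.2).2)
  have hq1 : ∑ k, ‖F (sh1 k) - F k‖ ^ 2 = ∑ k, ‖F (sh1.symm k) - F k‖ ^ 2 := by
    rw [← Equiv.sum_comp (sh1 (m := m)) fun k => ‖F (sh1.symm k) - F k‖ ^ 2]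
    refine sum_congr rfl fun k _ => ?_
    rw [Equiv.symm_apply_apply, norm_sub_rev]
  have hq2 : ∑ k, ‖F (sh2 k) - F k‖ ^ 2 = ∑ k, ‖F (sh2.symm k) - F k‖ ^ 2 := by
    rw [← Equiv.sum_comp (sh2 (m := m)) fun k => ‖F (sh2.symm k) - F k‖ ^ 2]
    refine sum_congr rfl fun k _ => ?_
    rw [Equiv.symm_apply_apply, norm_sub_rev]
  have a1 := shear_mass F sh1 A
  have a2 := shear_mass F sh2 A
  have b1 := shear_mass F sh1.symm B
  have b2 := shear_mass F sh2.symm B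
  rw [hq1] at a1
  rw [hq2] at a2
  have ha : ∑ k ∈ A, w k = ∑ k ∈ A, ‖F k‖ ^ 2 := rfl
  have hb : ∑ k ∈ B, w k = ∑ k ∈ B, ‖F k‖ ^ 2 := rfl
  have ha1 : ∑ k ∈ A, w (sh1 k) = ∑ k ∈ A, ‖F (sh1 k)‖ ^ 2 := rfl
  have ha2 : ∑ k ∈ A, w (sh2 k) = ∑ k ∈ A, ‖F (sh2 k)‖ ^ 2 := rfl
  have hb1 : ∑ k ∈ B, w (sh1.symm k) = ∑ k ∈ B, ‖F (sh1.symm k)‖ ^ 2 := rfl
  have hb2 : ∑ k ∈ B, w (sh2.symm k) = ∑ k ∈ B, ‖F (sh2.symm k)‖ ^ 2 := rfl
  rw [ha1, ha2] at hppA
  rw [hb1, hb2] at hppB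
  rw [← hW] at a1 a2 b1 b2
  linarith

/-- The energy identity for a permutation. -/
theorem energy (f : ZMod m × ZMod m → ℝ) (U : ZMod m × ZMod m ≃ ZMod m × ZMod m) :
    ∑ p, (f p * f (U p) + f p * f (U.symm p)) =
      2 * ∑ p, f p ^ 2 - ∑ p, (f (U p) - f p) ^ 2 := by
  have h1 : ∑ p, f p * f (U.symm p) = ∑ p, f p * f (U p) := by
    rw [← Equiv.sum_comp U fun p => f p * f (U.symm p)]
    refine sum_congr rfl fun p _ => ?_
    rw [Equiv.symm_apply_apply, mul_comm]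
  have h2 : ∑ p, f (U p) ^ 2 = ∑ p, f p ^ 2 := Equiv.sum_comp U fun p => f p ^ 2
  have h3 : ∑ p, (f (U p) - f p) ^ 2 =
      ∑ p, f (U p) ^ 2 - 2 * ∑ p, f p * f (U p) + ∑ p, f p ^ 2 := by
    rw [mul_sum, ← sum_sub_distrib, ← sum_add_distrib]
    exact sum_congr rfl fun p _ => by ring
  rw [sum_add_distrib, h1, h3, h2]
  ring

theorem gap : Pool.Agent.Helper32.PG.S_Gap := by
  intro m _ f hf
  have hF0 : ft f 0 = 0 := by
    rw [ft]
    have : ∀ p : ZMod m × ZMod m, (f p : ℂ) * ch ((0 : ZMod m × ZMod m).1 * p.1 +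
        (0 : ZMod m × ZMod m).2 * p.2) = (f p : ℂ) := by
      intro p
      have : ch ((0 : ZMod m × ZMod m).1 * p.1 + (0 : ZMod m × ZMod m).2 * p.2) = 1 := by
        simp [ch]
      rw [this, mul_one]
    rw [sum_congr rfl fun p _ => this p, ← Complex.ofReal_sum, hf, Complex.ofReal_zero]
  have hgap := fourier_gap (ft f) hF0
  have p0 := parseval f
  have p1 := parseval (fun p : ZMod m × ZMod m => f (p.1 + 1, p.2) - f p)
  have p2 := parseval (fun p : ZMod m × ZMod m => f (p.1, p.2 + 1) - f p)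
  have p3 := parseval (fun p : ZMod m × ZMod m => f (p.1 + p.2, p.2) - f p)
  have p4 := parseval (fun p : ZMod m × ZMod m => f (p.1, p.2 + p.1) - f p)
  have q1 : ∀ k, ft (fun p : ZMod m × ZMod m => f (p.1 + 1, p.2) - f p) k =
      ch (-k.1) * ft f k - ft f k := fun k => by
    rw [ft_sub (fun p : ZMod m × ZMod m => f (p.1 + 1, p.2)) f, ft_t1]
  have q2 : ∀ k, ft (fun p : ZMod m × ZMod m => f (p.1, p.2 + 1) - f p) k =
      ch (-k.2) * ft f k - ft f k := fun k => by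
    rw [ft_sub (fun p : ZMod m × ZMod m => f (p.1, p.2 + 1)) f, ft_t2]
  have q3 : ∀ k, ft (fun p : ZMod m × ZMod m => f (p.1 + p.2, p.2) - f p) k =
      ft f (sh2.symm k) - ft f k := fun k => by
    rw [ft_sub (fun p : ZMod m × ZMod m => f (p.1 + p.2, p.2)) f, ft_s1]
  have q4 : ∀ k, ft (fun p : ZMod m × ZMod m => f (p.1, p.2 + p.1) - f p) k =
      ft f (sh1.symm k) - ft f k := fun k => by
    rw [ft_sub (fun p : ZMod m × ZMod m => f (p.1, p.2 + p.1)) f, ft_s2]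
  simp only [q1] at p1
  simp only [q2] at p2
  simp only [q3] at p3
  simp only [q4] at p4
  rw [p0, p1, p2, p3, p4] at hgap
  have hm : (0 : ℝ) < (m : ℝ) ^ 2 := by
    have : (0 : ℝ) < m := by exact_mod_cast Nat.pos_of_ne_zero (NeZero.ne m)
    positivity
  set E : ℝ := ∑ p, f p ^ 2 with hE
  set D1 : ℝ := ∑ p : ZMod m × ZMod m, (f (p.1 + 1, p.2) - f p) ^ 2 with hD1
  set D2 : ℝ := ∑ p : ZMod m × ZMod m, (f (p.1, p.2 + 1) - f p) ^ 2 with hD2
  set D3 : ℝ := ∑ p : ZMod m × ZMod m, (f (p.1 + p.2, p.2) - f p) ^ 2 with hD3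
  set D4 : ℝ := ∑ p : ZMod m × ZMod m, (f (p.1, p.2 + p.1) - f p) ^ 2 with hD4
  have hE0 : 0 ≤ E := sum_nonneg fun p _ => sq_nonneg _
  have hD10 : 0 ≤ D1 := sum_nonneg fun p _ => sq_nonneg _
  have hD20 : 0 ≤ D2 := sum_nonneg fun p _ => sq_nonneg _
  have hD30 : 0 ≤ D3 := sum_nonneg fun p _ => sq_nonneg _
  have hD40 : 0 ≤ D4 := sum_nonneg fun p _ => sq_nonneg _
  have hmain : 3 / 5 * E ≤ 3 / 2 * (D1 + D2) + 20 * (D4 + D3) := by
    apply le_of_mul_le_mul_left _ hm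
    nlinarith
  have e1 := energy f ((Equiv.addRight (1 : ZMod m)).prodCongr (Equiv.refl _))
  have e2 := energy f ((Equiv.refl _).prodCongr (Equiv.addRight (1 : ZMod m)))
  have e3 := energy f sh1
  have e4 := energy f sh2
  have r1 : ∀ p : ZMod m × ZMod m, ((Equiv.addRight (1 : ZMod m)).prodCongr (Equiv.refl _)) p =
      (p.1 + 1, p.2) := fun p => rfl
  have r1' : ∀ p : ZMod m × ZMod m,
      ((Equiv.addRight (1 : ZMod m)).prodCongr (Equiv.refl (ZMod m))).symm p = (p.1 - 1, p.2) :=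
    fun p => by
      rw [Equiv.symm_apply_eq]
      simp
  have r2 : ∀ p : ZMod m × ZMod m, ((Equiv.refl _).prodCongr (Equiv.addRight (1 : ZMod m))) p =
      (p.1, p.2 + 1) := fun p => rfl
  have r2' : ∀ p : ZMod m × ZMod m,
      ((Equiv.refl (ZMod m)).prodCongr (Equiv.addRight (1 : ZMod m))).symm p = (p.1, p.2 - 1) :=
    fun p => by
      rw [Equiv.symm_apply_eq]
      simp
  have r3 : ∀ p : ZMod m × ZMod m, sh1 p = (p.1 + p.2, p.2) := fun p => rfl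
  have r3' : ∀ p : ZMod m × ZMod m, sh1.symm p = (p.1 - p.2, p.2) := fun p => rfl
  have r4 : ∀ p : ZMod m × ZMod m, sh2 p = (p.1, p.2 + p.1) := fun p => rfl
  have r4' : ∀ p : ZMod m × ZMod m, sh2.symm p = (p.1, p.2 - p.1) := fun p => rfl
  simp only [r1, r1'] at e1
  simp only [r2, r2'] at e2
  simp only [r3, r3'] at e3
  simp only [r4, r4'] at e4
  rw [← hE, ← hD1] at e1
  rw [← hE, ← hD2] at e2
  rw [← hE, ← hD3] at e3
  rw [← hE, ← hD4] at e4
  have etot : ∑ p : ZMod m × ZMod m, f p * (f (p.1 + 1, p.2) + f (p.1 - 1, p.2) + f (p.1, p.2 + 1) +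
      f (p.1, p.2 - 1) + f (p.1 + p.2, p.2) + f (p.1 - p.2, p.2) + f (p.1, p.2 + p.1) +
      f (p.1, p.2 - p.1)) = (2 * E - D1) + (2 * E - D2) + (2 * E - D3) + (2 * E - D4) := by
    rw [← e1, ← e2, ← e3, ← e4, ← sum_add_distrib, ← sum_add_distrib, ← sum_add_distrib]
    exact sum_congr rfl fun p _ => by ring
  rw [etot]
  linarith

end Pool.Agent.Helper72.PG
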