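import Pool.Agent.Helper32.PG.Stm

/-!
# The horn of Margulis graphs (package P6)
-/

set_option autoImplicit false

open Finset

namespace Pool.Agent.Helper72.PG

open Pool.Agent.Helper32.PG

/-! ## The moves inside a shell -/

section moves

variable {M : ℕ}

/-- The number of the eight moves which send `p` to `p'`. -/
def winZ (M : ℕ) (p p' : ZMod M × ZMod M) : ℕ :=
  (if (p.1 + 1, p.2) = p' then 1 else 0) + (if (p.1 - 1, p.2) = p' then 1 else 0) +
  (if (p.1, p.2 + 1) = p' then 1 else 0) + (if (p.1, p.2 - 1) = p' then 1 else 0) +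
  (if (p.1 + p.2, p.2) = p' then 1 else 0) + (if (p.1 - p.2, p.2) = p' then 1 else 0) +
  (if (p.1, p.2 + p.1) = p' then 1 else 0) + (if (p.1, p.2 - p.1) = p' then 1 else 0)

theorem winZ_symm (p p' : ZMod M × ZMod M) : winZ M p p' = winZ M p' p := by
  obtain ⟨x, y⟩ := p
  obtain ⟨x', y'⟩ := p'
  have h1 : ((x + 1, y) = (x', y')) ↔ ((x' - 1, y') = (x, y)) := by
    simp only [Prod.mk.injEq]
    constructor <;> rintro ⟨rfl, rfl⟩ <;> simp
  have h2 : ((x - 1, y) = (x', y')) ↔ ((x' + 1, y') = (x, y)) := by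
    simp only [Prod.mk.injEq]
    constructor <;> rintro ⟨rfl, rfl⟩ <;> simp
  have h3 : ((x, y + 1) = (x', y')) ↔ ((x', y' - 1) = (x, y)) := by
    simp only [Prod.mk.injEq]
    constructor <;> rintro ⟨rfl, rfl⟩ <;> simp
  have h4 : ((x, y - 1) = (x', y')) ↔ ((x', y' + 1) = (x, y)) := by
    simp only [Prod.mk.injEq]
    constructor <;> rintro ⟨rfl, rfl⟩ <;> simp
  have h5 : ((x + y, y) = (x', y')) ↔ ((x' - y', y') = (x, y)) := by
    simp only [Prod.mk.injEq]
    constructor <;> rintro ⟨rfl, rfl⟩ <;> simp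
  have h6 : ((x - y, y) = (x', y')) ↔ ((x' + y', y') = (x, y)) := by
    simp only [Prod.mk.injEq]
    constructor <;> rintro ⟨rfl, rfl⟩ <;> simp
  have h7 : ((x, y + x) = (x', y')) ↔ ((x', y' - x') = (x, y)) := by
    simp only [Prod.mk.injEq]
    constructor <;> rintro ⟨rfl, rfl⟩ <;> simp
  have h8 : ((x, y - x) = (x', y')) ↔ ((x', y' + x') = (x, y)) := by
    simp only [Prod.mk.injEq]
    constructor <;> rintro ⟨rfl, rfl⟩ <;> simp
  simp only [winZ, h1, h2, h3, h4, h5, h6, h7, h8]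
  omega

theorem winZ_sum [NeZero M] (p : ZMod M × ZMod M) (f : ZMod M × ZMod M → ℝ) :
    ∑ p', (winZ M p p' : ℝ) * f p' = f (p.1 + 1, p.2) + f (p.1 - 1, p.2) + f (p.1, p.2 + 1) +
      f (p.1, p.2 - 1) + f (p.1 + p.2, p.2) + f (p.1 - p.2, p.2) + f (p.1, p.2 + p.1) +
      f (p.1, p.2 - p.1) := by
  have h : ∀ q : ZMod M × ZMod M, ∑ p', ((if q = p' then 1 else 0 : ℕ) : ℝ) * f p' = f q := by
    intro q
    rw [sum_eq_single q]
    · simp
    · intro p' _ hp'
      rw [if_neg (Ne.symm hp')]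
      simp
    · intro h
      exact absurd (mem_univ q) h
  have e : ∀ p', (winZ M p p' : ℝ) * f p' =
      ((if (p.1 + 1, p.2) = p' then 1 else 0 : ℕ) : ℝ) * f p' +
      ((if (p.1 - 1, p.2) = p' then 1 else 0 : ℕ) : ℝ) * f p' +
      ((if (p.1, p.2 + 1) = p' then 1 else 0 : ℕ) : ℝ) * f p' +
      ((if (p.1, p.2 - 1) = p' then 1 else 0 : ℕ) : ℝ) * f p' +
      ((if (p.1 + p.2, p.2) = p' then 1 else 0 : ℕ) : ℝ) * f p' +
      ((if (p.1 - p.2, p.2) = p' then 1 else 0 : ℕ) : ℝ) * f p' +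
      ((if (p.1, p.2 + p.1) = p' then 1 else 0 : ℕ) : ℝ) * f p' +
      ((if (p.1, p.2 - p.1) = p' then 1 else 0 : ℕ) : ℝ) * f p' := by
    intro p'
    simp only [winZ, Nat.cast_add]
    ring
  rw [sum_congr rfl fun p' _ => e p']
  simp only [sum_add_distrib, h]

/-- The residues as an equivalence. -/
def fz (M : ℕ) [NeZero M] : Fin M ≃ ZMod M where
  toFun i := ((i : ℕ) : ZMod M)
  invFun z := ⟨z.val, ZMod.val_lt z⟩
  left_inv i := by
    apply Fin.ext
    exact ZMod.val_cast_of_lt i.2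
  right_inv z := ZMod.natCast_zmod_val z

/-- The weights in terms of natural numbers. -/
def win (M x y x' y' : ℕ) : ℕ := winZ M ((x : ZMod M), (y : ZMod M)) ((x' : ZMod M), (y' : ZMod M))

theorem win_symm (M x y x' y' : ℕ) : win M x y x' y' = win M x' y' x y := winZ_symm _ _

theorem win_sum [NeZero M] (p : Fin M × Fin M) (f : Fin M × Fin M → ℝ) :
    ∑ p' : Fin M × Fin M, (win M p.1 p.2 p'.1 p'.2 : ℝ) * f p' =
      ∑ q : ZMod M × ZMod M, (winZ M ((fz M) p.1, (fz M) p.2) q : ℝ) *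
        f ((fz M).symm q.1, (fz M).symm q.2) := by
  rw [← Equiv.sum_comp ((fz M).prodCongr (fz M)) fun q : ZMod M × ZMod M =>
    (winZ M ((fz M) p.1, (fz M) p.2) q : ℝ) * f ((fz M).symm q.1, (fz M).symm q.2)]
  refine sum_congr rfl fun p' _ => ?_
  simp only [Equiv.prodCongr_apply, Prod.map, Equiv.symm_apply_apply]
  rfl

theorem win_row [NeZero M] (p : Fin M × Fin M) :
    ∑ p' : Fin M × Fin M, (win M p.1 p.2 p'.1 p'.2 : ℝ) = 8 := by
  have h := win_sum p fun _ => 1
  simp only [mul_one] at h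
  rw [h]
  have h2 := winZ_sum ((fz M) p.1, (fz M) p.2) fun _ => (1 : ℝ)
  simp only [mul_one] at h2
  rw [h2]
  norm_num

theorem win_gap (hgap : S_Gap) [NeZero M] (f : Fin M × Fin M → ℝ) (hf : ∑ p, f p = 0) :
    ∑ p : Fin M × Fin M, ∑ p' : Fin M × Fin M, (win M p.1 p.2 p'.1 p'.2 : ℝ) * f p * f p' ≤
      (8 - 1 / 100) * ∑ p, f p ^ 2 := by
  set E : Fin M × Fin M ≃ ZMod M × ZMod M := (fz M).prodCongr (fz M) with hE
  set h : ZMod M × ZMod M → ℝ := fun q => f (E.symm q) with hh
  have h1 : ∑ q, h q = 0 := by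
    rw [← Equiv.sum_comp E h, ← hf]
    exact sum_congr rfl fun p _ => by rw [hh]; simp only [Equiv.symm_apply_apply]
  have h2 := hgap M h h1
  have h3 : ∑ q, h q ^ 2 = ∑ p, f p ^ 2 := by
    rw [← Equiv.sum_comp E fun q => h q ^ 2]
    exact sum_congr rfl fun p _ => by rw [hh]; simp only [Equiv.symm_apply_apply]
  have h4 : ∀ p : Fin M × Fin M, ∑ p' : Fin M × Fin M,
      (win M p.1 p.2 p'.1 p'.2 : ℝ) * f p * f p' =
      h (E p) * ∑ q, (winZ M (E p) q : ℝ) * h q := by
    intro p
    have h5 := win_sum p f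
    have h6 : ∑ p' : Fin M × Fin M, (win M p.1 p.2 p'.1 p'.2 : ℝ) * f p * f p' =
        f p * ∑ p' : Fin M × Fin M, (win M p.1 p.2 p'.1 p'.2 : ℝ) * f p' := by
      rw [mul_sum]
      exact sum_congr rfl fun p' _ => by ring
    rw [h6, h5]
    have h7 : h (E p) = f p := by rw [hh]; simp only [Equiv.symm_apply_apply]
    rw [h7]
    rfl
  rw [← h3, sum_congr rfl fun p _ => h4 p,
    Equiv.sum_comp E fun q => h q * ∑ q', (winZ M q q' : ℝ) * h q']
  refine le_trans (le_of_eq ?_) h2
  exact sum_congr rfl fun q _ => by rw [winZ_sum]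

end moves

/-! ## Fibres of the reduction -/

theorem fib_one {M j : ℕ} (hj : j < M) :
    ∑ i : Fin M, (if (i : ℕ) % M = j then (1 : ℝ) else 0) = 1 := by
  rw [sum_eq_single (⟨j, hj⟩ : Fin M)]
  · rw [if_pos (Nat.mod_eq_of_lt hj)]
  · intro i _ hi
    rw [if_neg]
    rw [Nat.mod_eq_of_lt i.2]
    intro h
    exact hi (Fin.ext h)
  · intro h
    exact absurd (mem_univ _) h

theorem fib_two {M M' j : ℕ} (hj : j < M) (hM : M' = 2 * M) :
    ∑ i : Fin M', (if (i : ℕ) % M = j then (1 : ℝ) else 0) = 2 := by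
  subst hM
  have h1 := fib_one hj
  rw [Fin.sum_univ_eq_sum_range (fun i => if i % M = j then (1 : ℝ) else 0) M] at h1
  rw [Fin.sum_univ_eq_sum_range (fun i => if i % M = j then (1 : ℝ) else 0) (2 * M), two_mul,
    Finset.sum_range_add]
  simp only [Nat.add_mod_left]
  rw [h1]
  norm_num

/-! ## The horn -/

section horn

variable (e : ℕ → ℕ)

/-- The vertices. -/
abbrev XX : Type := Σ n : ℕ, Fin (2 ^ e n) × Fin (2 ^ e n)

/-- The weight of the edges between the shells `n` and `n + 1`. -/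
def cc (n : ℕ) : ℕ := if e (n + 1) = e n then 2 else 1

/-- The weights. -/
def aN (x y : XX e) : ℕ :=
  if y.1 = x.1 then win (2 ^ e x.1) x.2.1 x.2.2 y.2.1 y.2.2
  else if y.1 = x.1 + 1 then
    (if (y.2.1 : ℕ) % 2 ^ e x.1 = x.2.1 ∧ (y.2.2 : ℕ) % 2 ^ e x.1 = x.2.2 then cc e x.1 else 0)
  else if x.1 = y.1 + 1 then
    (if (x.2.1 : ℕ) % 2 ^ e y.1 = y.2.1 ∧ (x.2.2 : ℕ) % 2 ^ e y.1 = y.2.2 then cc e y.1 else 0)
  else 0

theorem aN_same (n : ℕ) (p p' : Fin (2 ^ e n) × Fin (2 ^ e n)) :
    aN e ⟨n, p⟩ ⟨n, p'⟩ = win (2 ^ e n) p.1 p.2 p'.1 p'.2 := by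
  rw [aN, if_pos rfl]

theorem aN_up (n : ℕ) (p : Fin (2 ^ e n) × Fin (2 ^ e n))
    (p' : Fin (2 ^ e (n + 1)) × Fin (2 ^ e (n + 1))) :
    aN e ⟨n, p⟩ ⟨n + 1, p'⟩ =
      if (p'.1 : ℕ) % 2 ^ e n = p.1 ∧ (p'.2 : ℕ) % 2 ^ e n = p.2 then cc e n else 0 := by
  rw [aN, if_neg (by simp), if_pos rfl]

theorem aN_down (n : ℕ) (p : Fin (2 ^ e n) × Fin (2 ^ e n))
    (p' : Fin (2 ^ e (n + 1)) × Fin (2 ^ e (n + 1))) :
    aN e ⟨n + 1, p'⟩ ⟨n, p⟩ =
      if (p'.1 : ℕ) % 2 ^ e n = p.1 ∧ (p'.2 : ℕ) % 2 ^ e n = p.2 then cc e n else 0 := by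
  rw [aN, if_neg (by simp), if_neg (by simp only; omega), if_pos rfl]

theorem aN_symm (x y : XX e) : aN e x y = aN e y x := by
  obtain ⟨n, p⟩ := x
  obtain ⟨n', p'⟩ := y
  by_cases h1 : n' = n
  · subst h1
    rw [aN_same, aN_same, win_symm]
  · by_cases h2 : n' = n + 1
    · subst h2
      rw [aN_up, aN_down]
    · by_cases h3 : n = n' + 1
      · subst h3
        rw [aN_up, aN_down]
      · rw [aN, aN, if_neg (by simpa using h1), if_neg (by simpa using h2),
          if_neg (by simpa using h3), if_neg (by simp only; omega), if_neg (by simp only; omega),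
          if_neg (by simp only; omega)]

/-- The shells. -/
def Shl (n : ℕ) : Finset (XX e) := univ.map (Function.Embedding.sigmaMk n)

theorem mem_Shl (n : ℕ) (x : XX e) : x ∈ Shl e n ↔ x.1 = n := by
  rw [Shl, mem_map]
  constructor
  · rintro ⟨p, _, rfl⟩
    rfl
  · rintro rfl
    exact ⟨x.2, mem_univ _, rfl⟩

theorem sum_Shl (n : ℕ) (f : XX e → ℝ) : ∑ x ∈ Shl e n, f x = ∑ p, f ⟨n, p⟩ := by
  rw [Shl, sum_map]
  rfl

variable {e}

theorem pow_mono (he : ∀ n, e (n + 1) = e n ∨ e (n + 1) = e n + 1) (n : ℕ) :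
    2 ^ e n ≤ 2 ^ e (n + 1) := by
  apply Nat.pow_le_pow_right (by norm_num)
  rcases he n with h | h <;> omega

/-- The embedding of a shell in the next one. -/
def tau (he : ∀ n, e (n + 1) = e n ∨ e (n + 1) = e n + 1) (x : XX e) : XX e :=
  ⟨x.1 + 1, (⟨x.2.1, lt_of_lt_of_le x.2.1.2 (pow_mono he x.1)⟩,
    ⟨x.2.2, lt_of_lt_of_le x.2.2.2 (pow_mono he x.1)⟩)⟩

theorem tau_inj (he : ∀ n, e (n + 1) = e n ∨ e (n + 1) = e n + 1) :
    Function.Injective (tau he) := by
  rintro ⟨n, a, b⟩ ⟨n', a', b'⟩ h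
  have h1 : n = n' := by
    have := congrArg Sigma.fst h
    simpa [tau] using this
  subst h1
  have h2 := eq_of_heq (Sigma.mk.inj h).2
  rw [Prod.mk.injEq, Fin.mk.injEq, Fin.mk.injEq] at h2
  have h3 : a = a' := Fin.ext h2.1
  have h4 : b = b' := Fin.ext h2.2
  rw [h3, h4]

/-- The sum of products. -/
theorem sum_ind {M : ℕ} (u v : Fin M → Prop) [DecidablePred u] [DecidablePred v] (c : ℝ) :
    ∑ p : Fin M × Fin M, (if u p.1 ∧ v p.2 then c else 0) =
      c * ((∑ i, (if u i then (1 : ℝ) else 0)) * ∑ i, (if v i then (1 : ℝ) else 0)) := by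
  rw [Fintype.sum_prod_type, sum_mul_sum, mul_sum]
  refine sum_congr rfl fun i _ => ?_
  rw [mul_sum]
  refine sum_congr rfl fun j _ => ?_
  simp only
  by_cases h1 : u i <;> by_cases h2 : v j <;> simp [h1, h2]

theorem win_congr {M M' : ℕ} (h : M = M') (a b c d : ℕ) : win M a b c d = win M' a b c d := by
  rw [h]

theorem ite_mod {M M' c1 c2 : ℕ} (hM : M = M') (hc : c1 = c2) (a b c d : ℕ) :
    (if a % M = b ∧ c % M = d then c1 else 0) = if a % M' = b ∧ c % M' = d then c2 else 0 := by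
  rw [hM, hc]

theorem model : S_Model := by
  intro hgap e e0 he
  have hne : ∀ n, NeZero (2 ^ e n) := fun n => ⟨by positivity⟩
  let H : Horn (XX e) :=
    { Sh := Shl e
      sh := fun x => x.1
      e := e
      a := fun x y => (aN e x y : ℝ)
      tau := tau he
      mem := fun n x => mem_Shl e n x
      card := by
        intro n
        rw [Shl, card_map, card_univ, Fintype.card_prod, Fintype.card_fin, ← mul_pow]
        norm_num
      e0 := e0
      estep := he
      nn := fun x y => Nat.cast_nonneg _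
      symm := fun x y => by rw [aN_symm]
      loc := by
        intro x y h
        rw [aN, if_neg (by omega), if_neg (by omega), if_neg (by omega)]
        simp
      row0 := by
        rintro ⟨n, p⟩
        rw [sum_Shl]
        simp only [aN_same]
        have := hne n
        exact win_row p
      rowup := by
        rintro ⟨n, p⟩
        rw [sum_Shl]
        simp only [aN_up]
        have h1 : ∀ p' : Fin (2 ^ e (n + 1)) × Fin (2 ^ e (n + 1)),
            (((if (p'.1 : ℕ) % 2 ^ e n = p.1 ∧ (p'.2 : ℕ) % 2 ^ e n = p.2 then cc e n else 0 : ℕ)) : ℝ) =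
            if (p'.1 : ℕ) % 2 ^ e n = p.1 ∧ (p'.2 : ℕ) % 2 ^ e n = p.2 then (cc e n : ℝ) else 0 := by
          intro p'
          split_ifs <;> simp
        rw [sum_congr rfl fun p' _ => h1 p',
          sum_ind (fun i : Fin (2 ^ e (n + 1)) => (i : ℕ) % 2 ^ e n = p.1)
            (fun i : Fin (2 ^ e (n + 1)) => (i : ℕ) % 2 ^ e n = p.2)]
        rcases he n with h | h
        · have h2 : ∀ j : Fin (2 ^ e n), ∑ i : Fin (2 ^ e (n + 1)),
              (if (i : ℕ) % 2 ^ e n = j then (1 : ℝ) else 0) = 1 := by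
            rw [h]
            exact fun j => fib_one j.2
          rw [h2, h2, h, cc, if_pos h]
          have : (2 : ℝ) ^ e n ≠ 0 := by positivity
          field_simp
          norm_num
        · have h2 : ∀ j : Fin (2 ^ e n), ∑ i : Fin (2 ^ e (n + 1)),
              (if (i : ℕ) % 2 ^ e n = j then (1 : ℝ) else 0) = 2 :=
            fun j => fib_two j.2 (by rw [h, pow_succ, mul_comm])
          rw [h2, h2, h, cc, if_neg (by omega)]
          have : (2 : ℝ) ^ e n ≠ 0 := by positivity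
          rw [pow_succ]
          field_simp
          norm_num
      rowdn := by
        rintro ⟨n', p'⟩ n h0
        simp only at h0
        subst h0
        rw [sum_Shl]
        simp only [aN_down]
        rw [sum_eq_single ((⟨(p'.1 : ℕ) % 2 ^ e n, Nat.mod_lt _ (by positivity)⟩,
          ⟨(p'.2 : ℕ) % 2 ^ e n, Nat.mod_lt _ (by positivity)⟩) : Fin (2 ^ e n) × Fin (2 ^ e n))]
        · rw [if_pos ⟨rfl, rfl⟩]
          rcases he n with h | h
          · rw [h, cc, if_pos h]
            have : (2 : ℝ) ^ e n ≠ 0 := by positivity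
            field_simp
            norm_num
          · rw [h, cc, if_neg (by omega)]
            have : (2 : ℝ) ^ e n ≠ 0 := by positivity
            rw [pow_succ]
            field_simp
            norm_num
        · intro p _ hp
          rw [if_neg]
          · simp
          · rintro ⟨h1, h2⟩
            exact hp (Prod.ext (Fin.ext h1.symm) (Fin.ext h2.symm))
        · intro h
          exact absurd (mem_univ _) h
      gap := by
        intro n f hf
        rw [sum_Shl] at hf
        rw [sum_Shl, sum_Shl]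
        have := hne n
        have h1 := win_gap hgap (fun p => f ⟨n, p⟩) hf
        refine le_trans (le_of_eq ?_) h1
        refine sum_congr rfl fun p _ => ?_
        rw [sum_Shl]
        refine sum_congr rfl fun p' _ => ?_
        rw [aN_same]
      tinj := tau_inj he
      tsh := fun x => rfl
      ta := by
        rintro ⟨n, p⟩ ⟨n', p'⟩ h h'
        simp only at h h'
        have hc : cc e n = 2 := if_pos h.symm
        have hc' : cc e n' = 2 := if_pos h'.symm
        congr 1
        by_cases h1 : n' = n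
        · subst h1
          rw [aN_same]
          simp only [tau]
          rw [aN_same]
          exact win_congr (by rw [← h]) _ _ _ _
        · by_cases h2 : n' = n + 1
          · subst h2
            rw [aN_up]
            simp only [tau]
            rw [aN_up]
            exact ite_mod (by rw [← h]) (by rw [hc, hc']) _ _ _ _
          · by_cases h3 : n = n' + 1
            · subst h3
              rw [aN_down]
              simp only [tau]
              rw [aN_down]
              exact ite_mod (by rw [← h']) (by rw [hc, hc']) _ _ _ _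
            · simp only [tau]
              rw [aN, aN, if_neg (by simpa using h1), if_neg (by simpa using h2),
                if_neg (by simpa using h3), if_neg (by simpa using h1), if_neg (by simpa using h2),
                if_neg (by simpa using h3)] }
  have h1pos : 0 < 2 ^ e 0 := by positivity
  refine ⟨XX e, inferInstance, inferInstance, H, ⟨0, (⟨0, h1pos⟩, ⟨0, h1pos⟩)⟩, rfl, rfl,
    fun x y => ⟨aN e x y, rfl⟩, ?_⟩
  rintro ⟨n, p⟩
  induction n with
  | zero =>
    have h2 : ∀ i : Fin (2 ^ e 0), i = ⟨0, h1pos⟩ := by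
      intro i
      apply Fin.ext
      have h3 := i.2
      have h4 : 2 ^ e 0 = 1 := by rw [e0, pow_zero]
      simp only
      omega
    have h3 : p = (⟨0, h1pos⟩, ⟨0, h1pos⟩) := Prod.ext (h2 _) (h2 _)
    rw [h3]
  | succ n ih =>
    refine Relation.ReflTransGen.tail (ih (⟨(p.1 : ℕ) % 2 ^ e n, Nat.mod_lt _ (by positivity)⟩,
      ⟨(p.2 : ℕ) % 2 ^ e n, Nat.mod_lt _ (by positivity)⟩)) ?_
    change (0 : ℝ) < (aN e _ _ : ℝ)
    rw [aN_up, if_pos ⟨rfl, rfl⟩, cc]
    split_ifs <;> norm_num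

end horn

end Pool.Agent.Helper72.PG
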